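import Pool.Agent.RCM.Stmts

set_option autoImplicit false

namespace Pool.Agent.RCM.H69

open Set Pool.Agent.RCM

universe u

/-- closure in a partition matroid -/
theorem mem_clo {E R : Type u} (M : Matroid E) (r : E → R) (hM : ∀ I, M.Indep I ↔ InjOn r I)
    (A : Set E) (x : E) : x ∈ M.closure A ↔ r x ∈ r '' A := by
  have hE : ∀ y, y ∈ M.E := fun y => by
    have h : M.Indep {y} := (hM _).2 (injOn_singleton r y)
    exact h.subset_ground (mem_singleton y)
  have hAE : A ⊆ M.E := fun y _ => hE y
  constructor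
  · intro hx
    by_contra hr
    obtain ⟨B, hB⟩ := M.exists_isBasis A
    have hBA : B ⊆ A := hB.subset
    have hBi : InjOn r B := (hM _).1 hB.indep
    have hxB : x ∉ B := fun h => hr ⟨x, hBA h, rfl⟩
    have hins : M.Indep (insert x B) := by
      rw [hM, injOn_insert hxB]
      exact ⟨hBi, fun h => hr (image_mono hBA h)⟩
    have h2 : x ∉ M.closure B := (hB.indep.notMem_closure_iff_of_notMem hxB (hE x)).2 hins
    rw [hB.closure_eq_closure] at h2
    exact h2 hx
  · rintro ⟨a, ha, hax⟩
    have h1 : x ∈ M.closure {a} := by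
      by_cases hxa : x = a
      · subst hxa
        exact M.mem_closure_of_mem (mem_singleton x) (fun y _ => hE y)
      · have hi : M.Indep {a} := (hM _).2 (injOn_singleton r a)
        by_contra hn
        rw [hi.notMem_closure_iff_of_notMem (by simpa using hxa) (hE x), hM] at hn
        exact hxa (hn (mem_insert x {a}) (mem_insert_of_mem x (mem_singleton a)) hax.symm)
    exact M.closure_subset_closure (singleton_subset_iff.2 ha) h1

theorem core (hUNC : UncStmt.{u}) (hFRZ : FrzStmt.{u}) (hPLC : PlcStmt.{u})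
    (hRCH : RchStmt.{u}) (hPHI : PhiStmt.{u}) (hLSD : LsdStmt.{u}) (hBAR : BarStmt)
    (E : Type u) (K : Type) [Finite E] [Finite K] (M N : Matroid E)
    (κ : E → K) (s : ℕ) (R : Type u) [Fintype R] (r : E → R) (hC : Col M N κ s)
    (hM : ∀ I, M.Indep I ↔ InjOn r I) (hR : Fintype.card R = s) (z : ℕ) :
    ∀ (t : ℕ) (P : Set E) (X : Set K) (T : Set E), Mx M N κ t → St M N κ P X t T →
    (Un κ X T).ncard = 1 → t + P.ncard + z ≤ s →
    z * (z - 1) / 2 + min z 4 ≤ (T \ Sta M N κ P X T).ncard := by
  classical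
  -- elements of given class and colour
  have hex : ∀ (ρ : R) (g : K), ∃ x : E, κ x = g ∧ r x = ρ := by
    intro ρ g
    have hinj : InjOn r (κ ⁻¹' {g}) := (hM _).1 (hC.indM g)
    have hcard : (r '' (κ ⁻¹' {g})).ncard = (κ ⁻¹' {g}).ncard := hinj.ncard_image
    have huniv : r '' (κ ⁻¹' {g}) = univ := by
      apply Set.eq_of_subset_of_ncard_le (subset_univ _)
      rw [hcard, Set.ncard_univ, Nat.card_eq_fintype_card, hR]
      exact hC.card g
    have hρ : ρ ∈ r '' (κ ⁻¹' {g}) := by rw [huniv]; trivial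
    obtain ⟨x, hx, hxr⟩ := hρ
    exact ⟨x, hx, hxr⟩
  choose el hel1 hel2 using hex
  induction z with
  | zero =>
    intro t P X T _ _ _ _
    simp
  | succ z ih =>
    intro t P X T hMx hSt hUn hs
    haveI : Fintype K := Fintype.ofFinite K
    haveI : Fintype E := Fintype.ofFinite E
    set S := Sta M N κ P X T with hS
    set h := (T \ S).ncard with hh
    have hPl : (Pl M N κ P X T).ncard = h + 1 := by
      rw [hPLC E K M N κ s t P X T hC hMx hSt, hUn]
    have hST : S ⊆ T := fun e he => he T Relation.ReflTransGen.refl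
    have hScard : S.ncard + h = t := by
      rw [hh, ← hSt.card]
      have := Set.ncard_sdiff_add_ncard_of_subset hST
      omega
    -- classes
    let A : Finset R := Finset.univ.filter (fun ρ => ρ ∉ r '' (S ∪ P))
    let B : Finset K := Finset.univ.filter (fun g => g ∈ Pl M N κ P X T)
    have hBcard : B.card = h + 1 := by
      rw [← hPl, ← Set.ncard_coe_finset]
      congr 1
      ext g
      simp [B]
    have hAcard : h + (z + 1) ≤ A.card := by
      have h1 : A.card + (r '' (S ∪ P)).ncard = s := by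
        have h2 : (r '' (S ∪ P)).ncard =
            (Finset.univ.filter (fun ρ => ρ ∈ r '' (S ∪ P))).card := by
          rw [← Set.ncard_coe_finset]
          congr 1
          ext ρ
          simp
        rw [h2, ← hR, add_comm]
        exact Finset.card_filter_add_card_filter_not (s := (Finset.univ : Finset R))
          (fun ρ => ρ ∈ r '' (S ∪ P))
      have h3 : (r '' (S ∪ P)).ncard ≤ S.ncard + P.ncard :=
        (Set.ncard_image_le (Set.toFinite _)).trans (Set.ncard_union_le S P)
      omega
    have hrow : ∀ ρ ∈ A, z * (z - 1) / 2 + min z 4 + 1 ≤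
        (Finset.bipartiteAbove (fun (ρ : R) (g : K) => el ρ g ∈ Ph M N κ P X T) B ρ).card := by
      intro ρ hρ
      have hρ' : ρ ∉ r '' (S ∪ P) := (Finset.mem_filter.1 hρ).2
      -- a colour exists
      have hK : (Un κ X T).Nonempty := by
        rw [← Set.ncard_pos (Set.toFinite _)]; omega
      obtain ⟨c, hc⟩ := hK
      have hx1 : el ρ c ∉ M.closure (S ∪ P) := by
        rw [mem_clo M r hM, hel2]
        exact hρ'
      have hx2 : ∃ T', Rc M N κ P X T T' ∧ el ρ c ∉ M.closure (T' ∪ P) := by
        by_contra hne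
        push Not at hne
        exact hx1 (hUNC E K M N κ s t P X T (el ρ c) hC hMx hSt (fun T' hT' => hne T' hT'))
      obtain ⟨T', hT', hxT'⟩ := hx2
      obtain ⟨hSt', hPc, hSs, hPls, hall⟩ := hFRZ E K M N κ s t P X T T' (el ρ c) hC hMx hSt hT' hxT'
      have hUn' : (Un κ X T').ncard = 1 := by
        rw [(hRCH E K M N κ s t P X T T' hC hMx hSt hT').2.2.2.2.2.2, hUn]
      have hi := ih t (insert (el ρ c) P) X T' hMx hSt' hUn' (by rw [hPc]; omega)
      have hp := hPLC E K M N κ s t (insert (el ρ c) P) X T' hC hMx hSt'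
      rw [hUn'] at hp
      have hle : (Pl M N κ (insert (el ρ c) P) X T').ncard ≤
          (Finset.bipartiteAbove (fun (ρ : R) (g : K) => el ρ g ∈ Ph M N κ P X T) B ρ).card := by
        rw [← Set.ncard_coe_finset]
        apply Set.ncard_le_ncard _ (Set.toFinite _)
        intro g hg
        obtain ⟨hgX, T'', hT'', hgT''⟩ := hg
        obtain ⟨hr1, hr2⟩ := hall T'' hT''
        have hel : el ρ g ∉ M.closure (T'' ∪ P) := by
          rw [mem_clo M r hM, hel2]
          rw [mem_clo M r hM, hel2] at hr2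
          exact hr2
        have hSt'' := (hRCH E K M N κ s t P X T T'' hC hMx hSt hr1).1
        have hph := (hPHI E K M N κ s t P X T'' hC hMx hSt'').1 (el ρ g)
          (by rw [hel1]; exact hgT'') (by rw [hel1]; exact hgX) hel
        rw [(hPHI E K M N κ s t P X T hC hMx hSt).2 T'' hr1] at hph
        have hgB : g ∈ B := Finset.mem_filter.2 ⟨Finset.mem_univ _, hgX, T'', hr1, hgT''⟩
        exact Finset.mem_coe.2 (Finset.mem_filter.2 ⟨hgB, hph⟩)
      omega
    have hcol : ∀ g ∈ B,
        (Finset.bipartiteBelow (fun (ρ : R) (g : K) => el ρ g ∈ Ph M N κ P X T) A g).card ≤ h := by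
      intro g _
      refine le_trans ?_ ((hLSD E K M N κ s t P X T hC hMx hSt).2 g)
      rw [← Set.ncard_coe_finset]
      refine Set.ncard_le_ncard_of_injOn (fun ρ => el ρ g) ?_ ?_ (Set.toFinite _)
      · intro ρ hρ
        have h2 := (Finset.mem_filter.1 (Finset.mem_coe.1 hρ)).2
        exact ⟨hel1 ρ g, h2⟩
      · intro ρ1 _ ρ2 _ h12
        have h3 : r (el ρ1 g) = r (el ρ2 g) := by
          have : el ρ1 g = el ρ2 g := h12
          rw [this]
        rwa [hel2, hel2] at h3
    have hcount := Finset.card_mul_le_card_mul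
      (fun (ρ : R) (g : K) => el ρ g ∈ Ph M N κ P X T) hrow hcol
    rw [hBcard] at hcount
    have hfin := hBAR (z + 1) h (by omega)
    refine hfin ?_
    have e1 : z + 1 - 1 = z := by omega
    rw [e1]
    calc (h + (z + 1)) * (z * (z - 1) / 2 + min z 4 + 1)
        ≤ A.card * (z * (z - 1) / 2 + min z 4 + 1) := Nat.mul_le_mul_right _ hAcard
      _ ≤ (h + 1) * h := hcount
      _ = h * (h + 1) := Nat.mul_comm _ _

theorem bcl (hUNC : UncStmt.{u}) (hFRZ : FrzStmt.{u}) (hPLC : PlcStmt.{u})
    (hRCH : RchStmt.{u}) (hPHI : PhiStmt.{u}) (hLSD : LsdStmt.{u}) (hMON : MonStmt.{u})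
    (hBAR : BarStmt) : BclStmt.{u} := by
  intro E K _ _ M N κ s R _ r hC hM hR t P X T z hMx hSt hne hs
  obtain ⟨c, hc⟩ := hne
  let X' : Set K := X ∪ (Un κ X T \ {c})
  have hXX : X ⊆ X' := subset_union_left
  have hUn : Un κ X' T = {c} := by
    ext d
    constructor
    · rintro ⟨h1, h2⟩
      have hd : d ∈ Un κ X T := ⟨fun h => h1 (Or.inl h), h2⟩
      by_contra hdc
      exact h1 (Or.inr ⟨hd, hdc⟩)
    · rintro hd
      have hd' : d = c := hd
      subst hd'
      refine ⟨?_, hc.2⟩
      rintro (h | h)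
      · exact hc.1 h
      · exact h.2 rfl
  have hSt' : St M N κ P X' t T := by
    refine ⟨hSt.ri, hSt.card, hSt.fr, hSt.dj, ?_⟩
    intro e he h
    rcases h with h | h
    · exact hSt.col e he h
    · exact h.1.2 ⟨e, he, rfl⟩
  have h1 := core hUNC hFRZ hPLC hRCH hPHI hLSD hBAR E K M N κ s R r hC hM hR z t P X' T hMx hSt'
    (by rw [hUn, Set.ncard_singleton]) hs
  refine h1.trans ?_
  apply Set.ncard_le_ncard _ (Set.toFinite _)
  exact sdiff_subset_sdiff_right (hMON E K M N κ P X X' T hXX).2.1

end Pool.Agent.RCM.H69
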